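import Mathlib

/-!
# `MP_2568f3_co`: degree sequences of families of subgraphs of `K_{n,n}`

Q1 fails already for `k = 3` and `n = 6`.
-/

namespace Pool.Agent.Results.MP_2568f3_co.ThreeBySix

/-- The sum of the first `j` terms of the rearrangement of `c` in non-decreasing order. -/
def sortedPrefix {k : ℕ} (c : Fin k → ℕ) (j : ℕ) : ℕ :=
  (((List.ofFn c).insertionSort (· ≤ ·)).take j).sum

/-- The degree in `F` of the vertex `v` of the second side `V = Fin n`; a subgraph of `K_{n,n}` is
identified with its set of edges `(u, v) ∈ U × V`. -/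
def degV {n : ℕ} (F : Finset (Fin n × Fin n)) (v : Fin n) : ℕ :=
  (F.filter (fun e => e.2 = v)).card

/-- The assertion of Q1 for given `k` and `n`. -/
def Q1At (k n : ℕ) : Prop :=
  ∀ F : Fin k → Finset (Fin n × Fin n),
    (∀ j : ℕ, 1 ≤ j → j ≤ k → j * (j - 1) * n < sortedPrefix (fun i => (F i).card) j) →
    ∃ u : Fin k → Fin n, Function.Injective u ∧
      ∀ j : ℕ, 1 ≤ j → j ≤ k → j * (j - 1) < sortedPrefix (fun i => degV (F i) (u i)) j

/-- The degree matrix of the counterexample. -/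
def A : Fin 3 → Fin 6 → ℕ :=
  ![![3, 6, 3, 3, 3, 6], ![1, 2, 1, 1, 1, 6], ![0, 0, 0, 0, 0, 1]]

/-- The three subgraphs: `F i` joins the vertex `v` of `V` to the first `A i v` vertices
of `U`. -/
def F (i : Fin 3) : Finset (Fin 6 × Fin 6) :=
  Finset.univ.filter (fun e => e.1.val < A i e.2)

theorem card_F : (fun i => (F i).card) = ![24, 12, 1] := by
  decide +kernel

theorem deg_F : ∀ i v, degV (F i) v = A i v := by
  decide +kernel

theorem hyp_F : ∀ j : ℕ, 1 ≤ j → j ≤ 3 →
    j * (j - 1) * 6 < sortedPrefix (fun i => (F i).card) j := by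
  rw [card_F]
  intro j h1 h3
  interval_cases j <;> decide +kernel

theorem no_choice : ∀ u : Fin 3 → Fin 6, Function.Injective u →
    ¬ (0 < sortedPrefix (fun i => A i (u i)) 1 ∧ 2 < sortedPrefix (fun i => A i (u i)) 2 ∧
      6 < sortedPrefix (fun i => A i (u i)) 3) := by
  decide +kernel

/-- Q1 is false: it fails for `k = 3`, `n = 6`. -/
theorem result : ¬ Q1At 3 6 ∧ ¬ (∀ k n : ℕ, 1 ≤ k → 1 ≤ n → Q1At k n) := by
  have h : ¬ Q1At 3 6 := by
    intro h
    obtain ⟨u, hu, hj⟩ := h F hyp_F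
    simp only [deg_F] at hj
    exact no_choice u hu ⟨hj 1 (by norm_num) (by norm_num), hj 2 (by norm_num) (by norm_num),
      hj 3 (by norm_num) (by norm_num)⟩
  exact ⟨h, fun H => h (H 3 6 (by norm_num) (by norm_num))⟩

end Pool.Agent.Results.MP_2568f3_co.ThreeBySix
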